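import Mathlib
import Pool.Agent.Y647.RG.ImpRed

/-!
# Implied nonedges with a claw-free or reducible circuit lie in a `K_5` of the closure

Let `f = uv` be an implied nonedge of `G` in the generic three-dimensional rigidity matroid and `G₀`
a subgraph of `G` which already implies `f` (for example the fundamental circuit of `f` without `f`,
when `G` is independent). If `G₀ + f` is claw-free, then `f` lies in a `K_5` in the closure of `G`.
The same holds if `G₀ + f` can be reduced to claw-free graphs by deleting vertices of degree at most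
three, and by deleting vertices of degree four, or of degree five with a cycle through all
neighbours, with and without completing the neighbourhood.
-/

set_option autoImplicit false

namespace Pool.Agent.Results.MP_071ace_co.ClawFreeCircuit

open Finset Pool.Agent.H789R5 Pool.Agent.H283R2.DR

/-- no vertex has three pairwise non-adjacent neighbours -/
def ClawFree {V : Type} (G : SimpleGraph V) : Prop :=
  ∀ v a b c, G.Adj v a → G.Adj v b → G.Adj v c → a ≠ b → a ≠ c → b ≠ c →
    G.Adj a b ∨ G.Adj a c ∨ G.Adj b c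

/-- delete all edges at `v` and add all pairs of neighbours of `v` -/
def fill {V : Type} (G : SimpleGraph V) (v : V) : SimpleGraph V where
  Adj a b := (G.Adj a b ∧ a ≠ v ∧ b ≠ v) ∨ (a ≠ b ∧ G.Adj v a ∧ G.Adj v b)
  symm := ⟨fun _ _ h => h.imp (fun h => ⟨h.1.symm, h.2.2, h.2.1⟩)
    (fun h => ⟨h.1.symm, h.2.2, h.2.1⟩)⟩
  loopless := ⟨fun _ h => h.elim (fun h => h.1.ne rfl) (fun h => h.1 rfl)⟩

/-- the graphs which can be reduced to claw-free graphs -/
inductive Reducible {V : Type} : SimpleGraph V → Prop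
  | claw (G : SimpleGraph V) : ClawFree G → Reducible G
  | three (G : SimpleGraph V) (v : V) : {w | G.Adj v w}.ncard ≤ 3 →
      Reducible (G.deleteIncidenceSet v) → Reducible G
  | four (G : SimpleGraph V) (v : V) : {w | G.Adj v w}.ncard = 4 →
      Reducible (G.deleteIncidenceSet v) → Reducible (fill G v) → Reducible G
  | five (G : SimpleGraph V) (v : V) (b : Fin 5 → V) : Function.Injective b →
      (∀ w, G.Adj v w ↔ ∃ i, b i = w) → (∀ i, G.Adj (b i) (b (i + 2))) →
      Reducible (G.deleteIncidenceSet v) → Reducible (fill G v) → Reducible G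

/-- The closure `CL(G)` of `G` in the generic three-dimensional rigidity matroid: `x` and `y` are
adjacent in it when adding the edge `xy` to `G` does not change the generic rank. -/
noncomputable def CL {V : Type} [Fintype V] (G : SimpleGraph V) : SimpleGraph V where
  Adj x y := x ≠ y ∧ genRank 3 (G ⊔ SimpleGraph.edge x y) = genRank 3 G
  symm := ⟨fun x y h => ⟨h.1.symm, by rw [SimpleGraph.edge_comm]; exact h.2⟩⟩
  loopless := ⟨fun _ h => h.1 rfl⟩

open Pool.Agent.Y647.RG in
theorem impK_red {V : Type} [Fintype V] [DecidableEq V] {p : V → Fin 3 → ℝ} (hp : MG p)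
    {G : SimpleGraph V} (hG : Reducible G) : ImpK p G := by
  classical
  have hfill : ∀ (G : SimpleGraph V) (v : V) (N : Finset V), (∀ w, G.Adj v w ↔ w ∈ N) →
      fill G v = lc G v N := by
    intro G v N hN
    ext a b
    show _ ∨ _ ↔ _ ∨ _
    rw [hN, hN]
  have hfin : ∀ (G : SimpleGraph V) (v : V), ∃ N : Finset V, (∀ w, G.Adj v w ↔ w ∈ N) ∧
      {w | G.Adj v w}.ncard = N.card := by
    intro G v
    refine ⟨univ.filter fun w => G.Adj v w, fun w => by simp, ?_⟩
    rw [← Set.ncard_coe_finset]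
    congr 1
    ext w
    simp
  induction hG with
  | claw G hc => exact impK_claw hp hc
  | three G v h _ ih =>
    obtain ⟨N, hN, hc⟩ := hfin G v
    exact impK_three hp hN (by omega) ih
  | four G v h _ _ ih1 ih2 =>
    obtain ⟨N, hN, hc⟩ := hfin G v
    rw [hfill G v N hN] at ih2
    exact impK_four hp hN (by omega) ih1 ih2
  | five G v b hb hN hside _ _ ih1 ih2 =>
    have hN' : ∀ w, G.Adj v w ↔ w ∈ univ.image b := by
      intro w
      rw [hN, Finset.mem_image]
      simp
    rw [hfill G v _ hN'] at ih2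
    exact impK_five hp hb hN' hside ih1 ih2

/-- **Implied nonedges with a claw-free or reducible circuit.** Let `G₀` be a subgraph of `G` and
`uv` a nonedge of `G` which lies in the closure of `G₀`, such that `G₀ + uv` is reducible, for
example claw-free. Then `u` and `v` lie in a set of at least five vertices which are pairwise
adjacent in `CL(G₀)` and in `CL(G)`; in particular `uv` lies in a `K_5` in `CL(G)`. -/
theorem result (V : Type) [Fintype V] (G G₀ : SimpleGraph V) (u v : V) (h₀ : G₀ ≤ G)
    (hf : ¬ G.Adj u v) (himp : (CL G₀).Adj u v)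
    (hc : Reducible (G₀ ⊔ SimpleGraph.edge u v)) :
    ∃ A : Finset V, 5 ≤ A.card ∧ u ∈ A ∧ v ∈ A ∧
      ∀ x ∈ A, ∀ y ∈ A, x ≠ y → (CL G₀).Adj x y ∧ (CL G).Adj x y := by
  classical
  obtain ⟨huv, himp⟩ := himp
  obtain ⟨p, hp⟩ := exists_mg V 3
  set H := G₀ ⊔ SimpleGraph.edge u v with hH
  have r₀ := genRank_add hp G₀
  have rH := genRank_add hp H
  have hle : G₀ ≤ H := le_sup_left
  have hG₀ : G₀ ≤ H.deleteEdges {s(u, v)} := by
    intro x y hxy
    rw [SimpleGraph.deleteEdges_adj]
    refine ⟨hle hxy, ?_⟩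
    intro h
    have h' : s(x, y) = s(u, v) := h
    rcases Sym2.eq_iff.1 h' with ⟨rfl, rfl⟩ | ⟨rfl, rfl⟩
    · exact hf (h₀ hxy)
    · exact hf (h₀ hxy).symm
  have hm1 := mo_anti hG₀ p
  obtain ⟨A, hA5, huA, hvA, hA⟩ := impK_red hp hc u v (by
      rw [hH, SimpleGraph.sup_adj, SimpleGraph.edge_adj]
      exact Or.inr ⟨Or.inl ⟨rfl, rfl⟩, huv⟩) (by omega)
  have hmot : Mot G₀ p = Mot H p := by
    refine (Submodule.eq_of_le_of_finrank_le (mot_anti hle p) ?_).symm
    show mo G₀ p ≤ mo H p
    omega
  have hcl : ∀ x ∈ A, ∀ y ∈ A, ∀ q ∈ Mot G₀ p, (p x - p y) ⬝ᵥ (q x - q y) = 0 := by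
    intro x hx y hy q hq
    rw [hmot] at hq
    exact hA q hq x hx y hy
  have key : ∀ K : SimpleGraph V, G₀ ≤ K → ∀ x ∈ A, ∀ y ∈ A, x ≠ y → (CL K).Adj x y := by
    intro K hK x hx y hy hxy
    refine ⟨hxy, ?_⟩
    have rG := genRank_add hp K
    have rG' := genRank_add hp (K ⊔ SimpleGraph.edge x y)
    have h1 : mo K p ≤ mo (K ⊔ SimpleGraph.edge x y) p := by
      apply Submodule.finrank_mono
      intro q hq
      have hq₀ : q ∈ Mot G₀ p := mot_anti hK p hq
      rw [mem_mot] at hq ⊢
      intro a b hab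
      rw [SimpleGraph.sup_adj, SimpleGraph.edge_adj] at hab
      rcases hab with h | ⟨⟨rfl, rfl⟩ | ⟨rfl, rfl⟩, -⟩
      · exact hq a b h
      · exact hcl _ hx _ hy q hq₀
      · exact hcl _ hy _ hx q hq₀
    have h2 : mo (K ⊔ SimpleGraph.edge x y) p ≤ mo K p := mo_anti le_sup_left p
    omega
  exact ⟨A, hA5, huA, hvA, fun x hx y hy hxy =>
    ⟨key G₀ le_rfl x hx y hy hxy, key G h₀ x hx y hy hxy⟩⟩

end Pool.Agent.Results.MP_071ace_co.ClawFreeCircuit
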