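import Mathlib
import Pool.Agent.Y530.TM.K
import Pool.Agent.Y647.TM.Imp

/-!
# Implied nonedges whose circuit is composed of rigid parts

If an implied nonedge `uv` of a graph `G` is implied by a subgraph `G₀` such that `G₀ + uv` is
composed of rigid parts, then `u` and `v` lie in a set of at least five vertices which are pairwise
adjacent in the closure of `G`.

The argument for covers (`Pool.Agent.Y647.TM.Imp`) is due to helper647.
-/

set_option autoImplicit false

namespace Pool.Agent.Results.MP_071ace_co.RigidPartsCircuit

open Pool.Agent.H789R5 Pool.Agent.H283R2.DR Pool.Agent.Y530.TM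

/-- The closure `CL(G)` of `G` in the generic three-dimensional rigidity matroid: `x` and `y` are
adjacent in it when adding the edge `xy` to `G` does not change the generic rank. -/
noncomputable def CL {V : Type} [Fintype V] (G : SimpleGraph V) : SimpleGraph V where
  Adj x y := x ≠ y ∧ genRank 3 (G ⊔ SimpleGraph.edge x y) = genRank 3 G
  symm := ⟨fun x y h => ⟨h.1.symm, by rw [SimpleGraph.edge_comm]; exact h.2⟩⟩
  loopless := ⟨fun _ h => h.1 rfl⟩

/-- **Implied nonedges whose circuit is composed of rigid parts.** Let `uv` be a nonedge of `G`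
which is in the closure of a subgraph `G₀` of `G`. If `G₀ + uv` is composed of rigid parts, then
there is a set `A` of at least five vertices which contains `u` and `v` and whose elements are
pairwise adjacent in the closures of `G₀` and of `G`. In particular `uv` lies in a `K₅` in
`CL(G)`. -/
theorem result (V : Type) [Fintype V] (G G₀ : SimpleGraph V) (u v : V) (h₀ : G₀ ≤ G)
    (hf : ¬ G.Adj u v) (himp : (CL G₀).Adj u v) (hc : Composed (G₀ ⊔ SimpleGraph.edge u v)) :
    ∃ A : Finset V, 5 ≤ A.card ∧ u ∈ A ∧ v ∈ A ∧
      ∀ x ∈ A, ∀ y ∈ A, x ≠ y → (CL G₀).Adj x y ∧ (CL G).Adj x y := by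
  obtain ⟨C, _, γ, hγ⟩ := composed V (G₀ ⊔ SimpleGraph.edge u v) hc
  exact Pool.Agent.Y647.TM.Imp.t V C G G₀ u v h₀ hf himp γ hγ

end Pool.Agent.Results.MP_071ace_co.RigidPartsCircuit
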